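import Pool.Agent.K1H49.PL.Gen
import Pool.Agent.K1H72.PosL.MAX

/-!
# Project PL, general case: the modelling property from product homogeneity
-/

set_option autoImplicit false

namespace Pool.Agent.K1H39.PLG

open Pool.Agent.K1H49.PL

universe u

variable {M : Type u}

theorem emb_pre {e : Nd → Nd} (he : Emb e) (π ρ : Nd) : e π <+: e (π ++ ρ) := by
  induction ρ using List.reverseRecOn with
  | nil => simp
  | append_singleton ρ d ih =>
    rw [← List.append_assoc]
    exact ih.trans ((List.prefix_append _ _).trans (he _ _))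

theorem pt_of_emb {e : Nd → Nd} (he : Emb e) (n : ℕ) : Pt ndl n (fun η : LN n => e η.1) := by
  intro η η' d h
  obtain ⟨ρ, hρ⟩ := h
  show (e η.1 ++ [d]) <+: e η'.1
  rw [← hρ]
  exact (he _ _).trans (emb_pre he _ _)

/-- a pattern extends to an embedding -/
theorem exists_emb {n : ℕ} {E : LN n → Nd} (hE : Pt ndl n E) :
    ∃ e, Emb e ∧ ∀ η : LN n, e η.1 = E η := by
  refine ⟨fun π => E ⟨π.take n, by simp⟩ ++ π.drop n, ?_, ?_⟩
  · intro π d
    show (E ⟨π.take n, by simp⟩ ++ π.drop n ++ [d]) <+:
      (E ⟨(π ++ [d]).take n, by simp⟩ ++ (π ++ [d]).drop n)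
    rcases Nat.lt_or_ge π.length n with h | h
    · have h1 : π.take n = π := List.take_of_length_le h.le
      have h2 : π.drop n = [] := List.drop_of_length_le h.le
      have h3 : (π ++ [d]).take n = π ++ [d] := List.take_of_length_le (by simp; omega)
      have h4 : (π ++ [d]).drop n = [] := List.drop_of_length_le (by simp; omega)
      rw [h2, h4, List.append_nil, List.append_nil]
      refine hE _ _ d ?_
      show π.take n ++ [d] <+: (π ++ [d]).take n
      rw [h1, h3]
    · have h3 : (π ++ [d]).take n = π.take n := List.take_append_of_le_length h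
      have h4 : (π ++ [d]).drop n = π.drop n ++ [d] := List.drop_append_of_le_length h
      simp only [h3, h4, List.append_assoc]
      exact List.prefix_rfl
  · intro η
    have h1 : η.1.take n = η.1 := List.take_of_length_le η.2
    have h2 : η.1.drop n = [] := List.drop_of_length_le η.2
    show E ⟨η.1.take n, _⟩ ++ η.1.drop n = E η
    rw [h2, List.append_nil]
    congr 1
    exact Subtype.ext h1

theorem emb_id : Emb (fun π => π) := fun _ _ => List.prefix_rfl

theorem hk_iff {ι : Type} (x : Empty → M) (t : Option Empty → Nd → ι → M) (n : ℕ)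
    (S : Set ((LN n × ι) → M)) :
    HK x t n {v : Empty ⊕ (Option Empty × LN n × ι) → M |
      (v ∘ fun p : LN n × ι => Sum.inr (none, p.1, p.2)) ∈ S} ↔ Hm (t none) n S := by
  constructor
  · intro h e he
    exact h (fun _ η => e η.1) (fun _ => pt_of_emb he n)
  · intro h E hE
    obtain ⟨e, he, heq⟩ := exists_emb (hE none)
    have h1 := h e he
    have h2 : (fun p : LN n × ι => t none (e p.1.1) p.2) =
        fun p : LN n × ι => t none (E none p.1) p.2 := by
      funext p
      rw [heq]
    rw [h2] at h1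
    exact h1

theorem t_MPG : S_MPG.{u} := by
  intro M Y hEC hPH ι _ c
  obtain ⟨c', h1, hmax⟩ := Pool.Agent.K1H72.PosL.t_MAX Y c
  refine ⟨c', h1, ?_⟩
  intro m S hS e e' he he' hin
  obtain ⟨t', g1, g2⟩ := hPH ι m Empty Empty.elim (fun _ => c')
  -- the tree `t' none` satisfies the homogeneous conditions of `c'`
  have k1 : ∀ n S, Y.D S → Hm c' n S → Hm (t' none) n S := by
    intro n S hS h
    rw [← hk_iff Empty.elim]
    exact g1 n _ (Y.pull _ hS) ((hk_iff Empty.elim (fun _ => c') n S).2 h)
  have k2 := hmax (t' none) k1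
  have k3 : ∀ S : Set ((LN m × ι) → M), Y.D S → ∀ f f', Emb f → Emb f' →
      (fun p : LN m × ι => t' none (f p.1.1) p.2) ∈ S →
      (fun p : LN m × ι => t' none (f' p.1.1) p.2) ∈ S := by
    intro S hS f f' hf hf' h
    have h2 := g2 {v : Empty ⊕ ((Σ k : Option Empty, LN (dgo m (fun k : Empty => k.elim) k)) × ι) → M |
        (v ∘ fun p : LN m × ι => Sum.inr (⟨none, p.1⟩, p.2)) ∈ S} (Y.pull _ hS)
      (fun _ η => f η.1) (fun _ η => f' η.1) (fun _ => pt_of_emb hf _) (fun _ => pt_of_emb hf' _)
    exact h2 h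
  by_cases hid : (fun p : LN m × ι => t' none p.1.1 p.2) ∈ S
  · exact k2 m S hS (fun f hf => k3 S hS _ f emb_id hf hid) e' he'
  · exfalso
    obtain ⟨S', hS', hv, hdis⟩ := hEC S hS _ hid
    have h3 : Hm c' m S' := k2 m S' hS' (fun f hf => k3 S' hS' _ f emb_id hf hv)
    exact hdis _ hin (h3 e he)

end Pool.Agent.K1H39.PLG
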